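import Pool.Agent.H.MP_0ec261_nt.Pos2

/-!
A positive proportion of the even integers, and of the odd integers, satisfies `a(n) > 0`,
with `a(n)` at least of the expected order of magnitude.
-/

namespace Pool.Agent.H.MP_0ec261_nt.old.PositiveProportion

/-- `q` is a prime with `2 q ≤ n` such that `n - 2 q` (for odd `n`), respectively `n - q`
(for even `n`), is an odd prime. -/
def IsRep (n q : ℕ) : Prop :=
  q.Prime ∧ 2 * q ≤ n ∧ ((Odd n ∧ (n - 2 * q).Prime ∧ n - 2 * q ≠ 2) ∨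
    (Even n ∧ (n - q).Prime ∧ n - q ≠ 2))

/-- The Jacobi symbol of the problem: `(q / n)` for odd `n`, `(((q + 1) / 2) / (n + 1))` for even `n`. -/
noncomputable def symbol (n q : ℕ) : ℤ :=
  if Odd n then jacobiSym (q : ℤ) n else jacobiSym (((q + 1) / 2 : ℕ) : ℤ) (n + 1)

/-- The function `a(n)` of the problem. -/
noncomputable def a (n : ℕ) : ℕ := {q : ℕ | IsRep n q ∧ symbol n q = 1}.ncard

open Pool.Agent.H.MP_0ec261_nt in
lemma a_eq (n : ℕ) : a n = aN n := by
  classical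
  unfold a aN
  rw [← Set.ncard_coe_finset]
  congr 1
  ext q
  simp only [Set.mem_ofPred_eq, Finset.coe_filter, Finset.mem_range]
  constructor
  · intro h
    have h1 := h.1.2.1
    exact ⟨by omega, h⟩
  · exact fun h => h.2

/-- There is `c > 0` such that for all large `N` and each parity `e`, at least `c N` of the integers `n ≤ N`
with `n % 2 = e` have `a(n) ≥ c N / (log N)^2`. -/
theorem result : ∃ c : ℝ, 0 < c ∧ ∃ N₀ : ℕ, ∀ N : ℕ, N₀ ≤ N → ∀ e : ℕ, e < 2 →
    c * N ≤ (({n : ℕ | 1 ≤ n ∧ n ≤ N ∧ n % 2 = e ∧ c * N / (Real.log N) ^ 2 ≤ (a n : ℝ)}.ncard : ℕ) : ℝ) := by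
  classical
  obtain ⟨c, hc, N₀, h⟩ := Pool.Agent.H.MP_0ec261_nt.many_aN
  refine ⟨c, hc, N₀, fun N hN e he => ?_⟩
  obtain ⟨h1, h2⟩ := h N hN
  rcases (by omega : e = 0 ∨ e = 1) with rfl | rfl
  · refine h1.trans (le_of_eq ?_)
    congr 1
    rw [← Set.ncard_coe_finset]
    congr 1
    ext n
    simp only [Set.mem_ofPred_eq, Finset.coe_filter, Finset.mem_Icc, a_eq, and_assoc, Nat.even_iff]
  · refine h2.trans (le_of_eq ?_)
    congr 1
    rw [← Set.ncard_coe_finset]
    congr 1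
    ext n
    simp only [Set.mem_ofPred_eq, Finset.coe_filter, Finset.mem_Icc, a_eq, and_assoc, Nat.odd_iff]

end Pool.Agent.H.MP_0ec261_nt.old.PositiveProportion
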